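import Pool.Agent.V11304.RC.Sol

/-!
# MP_8f6a5a_an : the spectral radius of `(I - c eᵀ) P` can exceed one

A counterexample of order `1003` to the assertion of Q1.
-/

namespace Pool.Agent.Results.MP_8f6a5a_an.Full

open Matrix Finset

/-- `μ ∈ ℂ` is an eigenvalue of the real matrix `M`, regarded as a complex matrix. -/
def IsEigenvalue {n : ℕ} (M : Matrix (Fin n) (Fin n) ℝ) (μ : ℂ) : Prop :=
  ∃ v : Fin n → ℂ, v ≠ 0 ∧ (M.map (fun x : ℝ => (x : ℂ))) *ᵥ v = μ • v

/-- `ρ(M) = x`: `x` is the largest modulus of a complex eigenvalue of `M`. -/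
def HasSpectralRadius {n : ℕ} (M : Matrix (Fin n) (Fin n) ℝ) (x : ℝ) : Prop :=
  IsGreatest {t : ℝ | ∃ μ : ℂ, IsEigenvalue M μ ∧ t = ‖μ‖} x

/-- Conditions 1-3 of the problem: `P` is real symmetric, tridiagonal with strictly positive
entries on the three central diagonals, has spectral radius `1`, and the off-diagonal part of
every column has sum at most `1`. -/
structure Admissible {n : ℕ} (P : Matrix (Fin n) (Fin n) ℝ) : Prop where
  symm : P.IsSymm
  zero_off : ∀ r s : Fin n, ((r : ℕ) + 1 < s ∨ (s : ℕ) + 1 < r) → P r s = 0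
  pos_band : ∀ r s : Fin n, (r : ℕ) ≤ s + 1 → (s : ℕ) ≤ r + 1 → 0 < P r s
  radius : HasSpectralRadius P 1
  col_sum : ∀ s : Fin n,
    ∑ r ∈ univ.filter (fun r : Fin n => (r : ℕ) + 1 = s ∨ (s : ℕ) + 1 = r), P r s ≤ 1

/-- Nonnegative vectors with coordinate sum one. -/
def IsProb {n : ℕ} (c : Fin n → ℝ) : Prop := (∀ k, 0 ≤ c k) ∧ ∑ k, c k = 1

/-- `F = (I - c eᵀ) P`. -/
noncomputable def F {n : ℕ} (P : Matrix (Fin n) (Fin n) ℝ) (c : Fin n → ℝ) :
    Matrix (Fin n) (Fin n) ℝ :=
  (1 - vecMulVec c (fun _ => 1)) * P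

open Pool.Agent.V11304.RC

/-- The planar cross product. -/
noncomputable def cr (a b : ℂ) : ℝ := a.re * b.im - a.im * b.re

theorem cr_lower (a b x y : ℂ) (ha : |a.re| ≤ 2) (ha' : |a.im| ≤ 2) (hb : |b.re| ≤ 2)
    (hb' : |b.im| ≤ 2) (hx : ‖x‖ ≤ 1 / 10 ^ 12) (hy : ‖y‖ ≤ 1 / 10 ^ 12) :
    cr a b - 1 / 10 ^ 10 ≤ cr (a + x) (b + y) := by
  have h1 := le_trans (Complex.abs_re_le_norm x) hx
  have h2 := le_trans (Complex.abs_im_le_norm x) hx
  have h3 := le_trans (Complex.abs_re_le_norm y) hy
  have h4 := le_trans (Complex.abs_im_le_norm y) hy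
  have e1 : |a.re * y.im| ≤ 2 * (1 / 10 ^ 12) := by
    rw [abs_mul]; exact mul_le_mul ha h4 (abs_nonneg _) (by norm_num)
  have e2 : |a.im * y.re| ≤ 2 * (1 / 10 ^ 12) := by
    rw [abs_mul]; exact mul_le_mul ha' h3 (abs_nonneg _) (by norm_num)
  have e3 : |x.re * b.im| ≤ (1 / 10 ^ 12) * 2 := by
    rw [abs_mul]; exact mul_le_mul h1 hb' (abs_nonneg _) (by norm_num)
  have e4 : |x.im * b.re| ≤ (1 / 10 ^ 12) * 2 := by
    rw [abs_mul]; exact mul_le_mul h2 hb (abs_nonneg _) (by norm_num)
  have e5 : |x.re * y.im| ≤ (1 / 10 ^ 12) * (1 / 10 ^ 12) := by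
    rw [abs_mul]; exact mul_le_mul h1 h4 (abs_nonneg _) (by norm_num)
  have e6 : |x.im * y.re| ≤ (1 / 10 ^ 12) * (1 / 10 ^ 12) := by
    rw [abs_mul]; exact mul_le_mul h2 h3 (abs_nonneg _) (by norm_num)
  rw [abs_le] at e1 e2 e3 e4 e5 e6
  unfold cr
  rw [Complex.add_re, Complex.add_im, Complex.add_re, Complex.add_im]
  have hexp : (a.re + x.re) * (b.im + y.im) - (a.im + x.im) * (b.re + y.re)
      = (a.re * b.im - a.im * b.re) + a.re * y.im - a.im * y.re + x.re * b.im - x.im * b.re
        + x.re * y.im - x.im * y.re := by ring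
  rw [hexp]
  linarith [e1.1, e2.2, e3.1, e4.2, e5.1, e6.2]

theorem admissible_P : Admissible P where
  symm := P_symm
  zero_off := by
    intro r s h
    show p r s = 0
    unfold p
    rw [if_neg (by omega), if_neg (by omega), if_neg (by omega)]
    simp
  pos_band := by
    intro r s h1 h2
    show 0 < p r s
    unfold p
    have ha := A_pos r
    have hb := Bd_pos r
    have hc := Bd_pos s
    by_cases e1 : (s : ℕ) = r
    · rw [if_pos e1, if_neg (by omega), if_neg (by omega)]
      linarith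
    · by_cases e2 : (s : ℕ) = r + 1
      · rw [if_neg e1, if_pos e2, if_neg (by omega)]
        linarith
      · rw [if_neg e1, if_neg e2, if_pos (by omega)]
        linarith
  radius := by
    constructor
    · refine ⟨1, ?_, by simp⟩
      apply isEig_one P (fun i : Fin nn => u i) _ P_mulVec_u
      intro h
      have := congrFun h ⟨0, by norm_num⟩
      have h2 := u_pos 0
      simp only [Pi.zero_apply] at this
      linarith
    · rintro t ⟨μ, hμ, rfl⟩
      refine perron P (fun i : Fin nn => u i) ?_ (fun i => u_pos i) P_mulVec_u μ hμ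
      intro i j
      show 0 ≤ p i j
      unfold p
      have h1 := (A_pos i).le
      have h2 := (Bd_pos i).le
      have h3 := (Bd_pos j).le
      split_ifs <;> linarith
  col_sum := by
    intro s
    have h1 : ∀ r ∈ univ.filter (fun r : Fin nn => (r : ℕ) + 1 = s ∨ (s : ℕ) + 1 = r),
        P r s ≤ (if (r : ℕ) + 1 = s then (1 / 2 : ℝ) else 0)
          + (if (s : ℕ) + 1 = r then (1 / 2 : ℝ) else 0) := by
      intro r hr
      rw [mem_filter] at hr
      show p r s ≤ _
      unfold p
      rcases hr.2 with h | h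
      · rw [if_neg (by omega), if_pos h.symm, if_neg (by omega), if_pos h, if_neg (by omega)]
        have := Bd_le r
        linarith
      · rw [if_neg (by omega), if_neg (by omega), if_pos h.symm, if_neg (by omega), if_pos h]
        have := Bd_le s
        linarith
    refine le_trans (Finset.sum_le_sum h1) ?_
    refine le_trans (Finset.sum_le_univ_sum_of_nonneg ?_) ?_
    · intro r
      split_ifs <;> norm_num
    · rw [Finset.sum_add_distrib]
      have h2 : ∑ r : Fin nn, (if (r : ℕ) + 1 = s then (1 / 2 : ℝ) else 0) ≤ 1 / 2 := by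
        rw [Finset.sum_ite, Finset.sum_const_zero, add_zero, Finset.sum_const, nsmul_eq_mul]
        have : (univ.filter (fun r : Fin nn => (r : ℕ) + 1 = s)).card ≤ 1 := by
          rw [Finset.card_le_one]
          intro a ha b hb
          rw [mem_filter] at ha hb
          apply Fin.ext
          omega
        have : ((univ.filter (fun r : Fin nn => (r : ℕ) + 1 = s)).card : ℝ) ≤ 1 := by
          exact_mod_cast this
        linarith
      have h3 : ∑ r : Fin nn, (if (s : ℕ) + 1 = r then (1 / 2 : ℝ) else 0) ≤ 1 / 2 := by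
        rw [Finset.sum_ite, Finset.sum_const_zero, add_zero, Finset.sum_const, nsmul_eq_mul]
        have : (univ.filter (fun r : Fin nn => (s : ℕ) + 1 = r)).card ≤ 1 := by
          rw [Finset.card_le_one]
          intro a ha b hb
          rw [mem_filter] at ha hb
          apply Fin.ext
          omega
        have : ((univ.filter (fun r : Fin nn => (s : ℕ) + 1 = r)).card : ℝ) ≤ 1 := by
          exact_mod_cast this
        linarith
      linarith

theorem norm_gt : 1 < ‖(1 + (b : ℂ) * Complex.I)‖ := by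
  have hb := b_pos
  have h : 1 < ‖(1 + (b : ℂ) * Complex.I)‖ ^ 2 := by
    rw [← Complex.normSq_eq_norm_sq, Complex.normSq_apply]
    simp
    positivity
  nlinarith [norm_nonneg (1 + (b : ℂ) * Complex.I)]

theorem main : ∃ c : Fin 1003 → ℝ, IsProb c ∧
    ∃ μ : ℂ, 1 < ‖μ‖ ∧ IsEigenvalue (F P c) μ := by
  obtain ⟨z, hz, hclose⟩ := exists_sol
  set i0 : Fin nn := ⟨0, by norm_num⟩ with hi0
  set i1 : Fin nn := ⟨1, by norm_num⟩ with hi1
  set i3 : Fin nn := ⟨3, by norm_num⟩ with hi3
  have n01 : i0 ≠ i1 := by rw [hi0, hi1]; intro h; have := congrArg Fin.val h; simp at this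
  have n03 : i0 ≠ i3 := by rw [hi0, hi3]; intro h; have := congrArg Fin.val h; simp at this
  have n13 : i1 ≠ i3 := by rw [hi1, hi3]; intro h; have := congrArg Fin.val h; simp at this
  have c0 : ‖z i0 - (1 / 10) * y0‖ ≤ 1 / 10 ^ 12 := by
    have := hclose i0
    have e : ((u (i0 : ℕ) : ℝ) : ℂ) * yh i0 = (1 / 10) * y0 := by
      show ((1 / 10 : ℝ) : ℂ) * y0 = _
      push_cast; ring
    rwa [e] at this
  have c1 : ‖z i1 - 28 * y1‖ ≤ 1 / 10 ^ 12 := by
    have := hclose i1
    have e : ((u (i1 : ℕ) : ℝ) : ℂ) * yh i1 = 28 * y1 := by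
      show ((28 : ℝ) : ℂ) * y1 = _
      push_cast; ring
    rwa [e] at this
  have c3 : ‖z i3 - Y‖ ≤ 1 / 10 ^ 12 := by
    have := hclose i3
    have e : ((u (i3 : ℕ) : ℝ) : ℂ) * yh i3 = Y := by
      show ((1 : ℝ) : ℂ) * (Y + dl 0) = _
      simp [dl]
    rwa [e] at this
  have x01 : 0 < cr (z i0) (z i1) := by
    have h := cr_lower ((1 / 10) * y0) (28 * y1) (z i0 - (1 / 10) * y0) (z i1 - 28 * y1)
      (by rw [abs_le]; constructor <;> simp [y0] <;> norm_num)
      (by rw [abs_le]; constructor <;> simp [y0] <;> norm_num)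
      (by rw [abs_le]; constructor <;> simp [y1] <;> norm_num)
      (by rw [abs_le]; constructor <;> simp [y1] <;> norm_num) c0 c1
    rw [add_sub_cancel, add_sub_cancel] at h
    refine lt_of_lt_of_le ?_ h
    simp [cr, y0, y1]
    norm_num
  have x13 : 0 < cr (z i1) (z i3) := by
    have h := cr_lower (28 * y1) Y (z i1 - 28 * y1) (z i3 - Y)
      (by rw [abs_le]; constructor <;> simp [y1] <;> norm_num)
      (by rw [abs_le]; constructor <;> simp [y1] <;> norm_num)
      (by rw [abs_le]; constructor <;> simp [Y] <;> norm_num)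
      (by rw [abs_le]; constructor <;> simp [Y] <;> norm_num) c1 c3
    rw [add_sub_cancel, add_sub_cancel] at h
    refine lt_of_lt_of_le ?_ h
    simp [cr, Y, y1]
    norm_num
  have x30 : 0 < cr (z i3) (z i0) := by
    have h := cr_lower Y ((1 / 10) * y0) (z i3 - Y) (z i0 - (1 / 10) * y0)
      (by rw [abs_le]; constructor <;> simp [Y] <;> norm_num)
      (by rw [abs_le]; constructor <;> simp [Y] <;> norm_num)
      (by rw [abs_le]; constructor <;> simp [y0] <;> norm_num)
      (by rw [abs_le]; constructor <;> simp [y0] <;> norm_num) c3 c0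
    rw [add_sub_cancel, add_sub_cancel] at h
    refine lt_of_lt_of_le ?_ h
    simp [cr, Y, y0]
    norm_num
  set T : ℝ := cr (z i1) (z i3) + cr (z i3) (z i0) + cr (z i0) (z i1) with hT
  have hTpos : 0 < T := by rw [hT]; linarith
  set c : Fin nn → ℝ := fun i => (if i = i0 then cr (z i1) (z i3) / T else 0)
    + (if i = i1 then cr (z i3) (z i0) / T else 0)
    + (if i = i3 then cr (z i0) (z i1) / T else 0) with hc
  have hsum : ∑ i, c i = 1 := by
    rw [hc]
    rw [Finset.sum_add_distrib, Finset.sum_add_distrib, Finset.sum_ite_eq' univ i0,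
      Finset.sum_ite_eq' univ i1, Finset.sum_ite_eq' univ i3, if_pos (mem_univ _),
      if_pos (mem_univ _), if_pos (mem_univ _)]
    rw [← add_div, ← add_div, ← hT]
    exact div_self hTpos.ne'
  have hcz : ∑ i, (c i : ℂ) * z i = 0 := by
    have h1 : ∀ i ∈ (univ : Finset (Fin nn)), (c i : ℂ) * z i
        = (if i = i0 then ((cr (z i1) (z i3) / T : ℝ) : ℂ) * z i0 else 0)
          + (if i = i1 then ((cr (z i3) (z i0) / T : ℝ) : ℂ) * z i1 else 0)
          + (if i = i3 then ((cr (z i0) (z i1) / T : ℝ) : ℂ) * z i3 else 0) := by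
      intro i _
      rw [hc]
      by_cases a0 : i = i0
      · rw [a0]
        simp only [if_pos, if_neg n01, if_neg n03, add_zero]
      · by_cases a1 : i = i1
        · rw [a1]
          simp only [if_pos, if_neg n01.symm, if_neg n13, add_zero, zero_add]
        · by_cases a3 : i = i3
          · rw [a3]
            simp only [if_pos, if_neg n03.symm, if_neg n13.symm, zero_add]
          · simp only [if_neg a0, if_neg a1, if_neg a3, add_zero, Complex.ofReal_zero, zero_mul]
    rw [Finset.sum_congr rfl h1, Finset.sum_add_distrib, Finset.sum_add_distrib,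
      Finset.sum_ite_eq' univ i0, Finset.sum_ite_eq' univ i1, Finset.sum_ite_eq' univ i3,
      if_pos (mem_univ _), if_pos (mem_univ _), if_pos (mem_univ _)]
    apply Complex.ext
    · simp only [Complex.add_re, Complex.mul_re, Complex.ofReal_re, Complex.ofReal_im,
        zero_mul, sub_zero, Complex.zero_re, cr]
      field_simp
      ring
    · simp only [Complex.add_im, Complex.mul_im, Complex.ofReal_re, Complex.ofReal_im,
        zero_mul, add_zero, Complex.zero_im, cr]
      field_simp
      ring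
  refine ⟨c, ⟨?_, hsum⟩, 1 + (b : ℂ) * Complex.I, ?_, ?_⟩
  · intro k
    show 0 ≤ (if k = i0 then cr (z i1) (z i3) / T else 0)
      + (if k = i1 then cr (z i3) (z i0) / T else 0)
      + (if k = i3 then cr (z i0) (z i1) / T else 0)
    have h1 := (div_pos x13 hTpos).le
    have h2 := (div_pos x30 hTpos).le
    have h3 := (div_pos x01 hTpos).le
    split_ifs <;> linarith
  · exact norm_gt
  · exact eig_of_hull P P_symm b b_pos.ne' z c hsum hcz hz

/-- **Q1 is false.**  There is an admissible matrix `P` of order `1003` and a probability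
vector `c` such that `(I - c eᵀ) P` has a complex eigenvalue of modulus greater than one. -/
theorem result : ∃ (P : Matrix (Fin 1003) (Fin 1003) ℝ) (c : Fin 1003 → ℝ),
    Admissible P ∧ IsProb c ∧ ∃ μ : ℂ, 1 < ‖μ‖ ∧ IsEigenvalue (F P c) μ := by
  obtain ⟨c, hc, h⟩ := main
  exact ⟨P, c, admissible_P, hc, h⟩

end Pool.Agent.Results.MP_8f6a5a_an.Full
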